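import Mathlib

/-!
# Minimal defining sets of simple designs: definitions
-/

set_option autoImplicit false

namespace Pool.Agent.Y344.HoleDefs

/-- `B` is a simple `t-(v, k, lam)` design on the point set `Fin v`: all blocks are `k`-subsets and
every `t`-subset lies in exactly `lam` blocks. -/
def IsDesign (v t k lam : ℕ) (B : Finset (Finset (Fin v))) : Prop :=
  (∀ b ∈ B, b.card = k) ∧
    ∀ T : Finset (Fin v), T.card = t → (B.filter (fun b => T ⊆ b)).card = lam

/-- `S` is a defining set of the design `D`: `D` is the only `t-(v, k, lam)` design on the same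
points whose block set contains `S`. -/
def IsDefiningSet (v t k lam : ℕ) (D S : Finset (Finset (Fin v))) : Prop :=
  S ⊆ D ∧ ∀ E : Finset (Finset (Fin v)), IsDesign v t k lam E → S ⊆ E → E = D

/-- `S` is a minimal defining set of `D`: no proper subset of `S` is a defining set of `D`. -/
def IsMinimalDefiningSet (v t k lam : ℕ) (D S : Finset (Finset (Fin v))) : Prop :=
  IsDefiningSet v t k lam D S ∧
    ∀ S' : Finset (Finset (Fin v)), S' ⊂ S → ¬ IsDefiningSet v t k lam D S'

/-- The spectrum of `D`: the set of the sizes of the minimal defining sets of `D`. -/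
def Spec (v t k lam : ℕ) (D : Finset (Finset (Fin v))) : Set ℕ :=
  {n | ∃ S : Finset (Finset (Fin v)), IsMinimalDefiningSet v t k lam D S ∧ S.card = n}

end Pool.Agent.Y344.HoleDefs
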