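import Mathlib

/-!
# Search for minimal hitting sets: routine and soundness
-/

set_option autoImplicit false

namespace Pool.Agent.Y344.Holes

/-- an element of the ground set with its bit and its incidence mask -/
abbrev Tok := ℕ × ℕ × ℕ

/-- branching over the elements of an edge -/
def branch (f : ℕ → ℕ → Bool) : List Tok → ℕ → Bool
  | [], _ => true
  | x :: xs, X => (bif Nat.beq (X &&& x.2.1) 0 then f x.2.2 X else true) &&
      branch f xs (X ||| x.2.1)

/-- every chosen element still can have a private edge -/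
def priv (c : ℕ) : List ℕ → Bool
  | [] => true
  | J :: L => (bif Nat.beq (J &&& c) J then false else true) && priv c L

/-- the search: `L` incidence masks of the chosen elements, `a` the edges met at least once, `c` the
edges met at least twice, `X` the excluded elements -/
def go (ok : ℕ → Bool) : List (ℕ × List Tok) → List ℕ → ℕ → ℕ → ℕ → Bool
  | [], L, _, _, _ => ok L.length
  | e :: es, L, a, c, X =>
    bif Nat.beq (a &&& e.1) 0 then
      branch (fun I X' => bif priv (c ||| (a &&& I)) (I :: L) then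
        go ok es (I :: L) (a ||| I) (c ||| (a &&& I)) X' else true) e.2 X
    else go ok es L a c X

lemma or_and_ne (a b z : ℕ) : (a ||| b) &&& z ≠ 0 ↔ a &&& z ≠ 0 ∨ b &&& z ≠ 0 := by
  rw [Nat.and_or_distrib_right]
  constructor
  · intro h
    by_contra hc
    push Not at hc
    rw [hc.1, hc.2] at h
    exact h rfl
  · intro h h0
    have h1 : a &&& z = 0 := by
      apply Nat.eq_of_testBit_eq
      intro i
      have := congrArg (fun n => Nat.testBit n i) h0
      simp only [Nat.testBit_or, Nat.zero_testBit, Bool.or_eq_false_iff] at this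
      rw [this.1, Nat.zero_testBit]
    have h2 : b &&& z = 0 := by
      apply Nat.eq_of_testBit_eq
      intro i
      have := congrArg (fun n => Nat.testBit n i) h0
      simp only [Nat.testBit_or, Nat.zero_testBit, Bool.or_eq_false_iff] at this
      rw [this.2, Nat.zero_testBit]
    rcases h with h | h
    · exact h h1
    · exact h h2

section sound

variable {M : Finset ℕ} {toks : List Tok} {E : List (ℕ × List Tok)}

lemma branch_sound {f : ℕ → ℕ → Bool}
    (hX : ∀ x ∈ toks, ∀ y ∈ toks, x.2.1 &&& y.2.1 ≠ 0 → x = y) :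
    ∀ (xs : List Tok) (X : ℕ), xs ⊆ toks → (∃ x ∈ xs, x.1 ∈ M) →
      (∀ x ∈ toks, X &&& x.2.1 ≠ 0 → x.1 ∉ M) → branch f xs X = true →
      ∃ x ∈ xs, x.1 ∈ M ∧ ∃ X', (∀ x ∈ toks, X' &&& x.2.1 ≠ 0 → x.1 ∉ M) ∧
        f x.2.2 X' = true := by
  intro xs
  induction xs with
  | nil => intro X _ h; obtain ⟨x, hx, _⟩ := h; exact absurd hx List.not_mem_nil
  | cons y ys ih =>
    intro X hsub hex hXM hb
    rw [branch, Bool.and_eq_true] at hb
    have hy : y ∈ toks := hsub List.mem_cons_self
    by_cases hyM : y.1 ∈ M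
    · refine ⟨y, List.mem_cons_self, hyM, X, hXM, ?_⟩
      have h0 : X &&& y.2.1 = 0 := by
        by_contra hne
        exact hXM y hy hne hyM
      have := hb.1
      rw [h0] at this
      simpa using this
    · obtain ⟨x, hx, hxM, X', h1, h2⟩ := ih (X ||| y.2.1) (fun z hz => hsub (List.mem_cons_of_mem _ hz))
        (by
          obtain ⟨x, hx, hxM⟩ := hex
          rcases List.mem_cons.mp hx with rfl | hx'
          · exact absurd hxM hyM
          · exact ⟨x, hx', hxM⟩)
        (by
          intro x hx hne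
          rcases (or_and_ne _ _ _).mp hne with h | h
          · exact hXM x hx h
          · have := hX y hy x hx h
            rw [← this]; exact hyM) hb.2
      exact ⟨x, List.mem_cons_of_mem _ hx, hxM, X', h1, h2⟩

lemma priv_true {c : ℕ} : ∀ {L : List ℕ}, (∀ J ∈ L, J &&& c ≠ J) → priv c L = true := by
  intro L
  induction L with
  | nil => intro _; rfl
  | cons J L ih =>
    intro h
    have h1 : Nat.beq (J &&& c) J = false := by
      have := h J List.mem_cons_self
      rw [← Bool.not_eq_true, Nat.beq_eq]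
      exact this
    rw [priv, h1, ih (fun J' hJ' => h J' (List.mem_cons_of_mem _ hJ'))]
    rfl

theorem go_sound {ok : ℕ → Bool}
    (hE1 : ∀ e ∈ E, ∀ x ∈ e.2, x ∈ toks ∧ x.2.2 &&& e.1 ≠ 0)
    (hE2 : ∀ e ∈ E, ∀ x ∈ toks, x.2.2 &&& e.1 ≠ 0 → x ∈ e.2)
    (hX : ∀ x ∈ toks, ∀ y ∈ toks, x.2.1 &&& y.2.1 ≠ 0 → x = y)
    (hel : ∀ x ∈ toks, ∀ y ∈ toks, x.1 = y.1 → x = y)
    (hit : ∀ e ∈ E, ∃ x ∈ e.2, x.1 ∈ M)
    (hmin : ∀ b ∈ M, ∃ e ∈ E, (∃ x ∈ e.2, x.1 = b) ∧ ∀ x ∈ e.2, x.1 ∈ M → x.1 = b) :
    ∀ (es : List (ℕ × List Tok)) (T : List Tok) (a c X : ℕ),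
      es ⊆ E → T ⊆ toks → T.Nodup → (∀ x ∈ T, x.1 ∈ M) →
      (∀ z, a &&& z ≠ 0 ↔ ∃ x ∈ T, x.2.2 &&& z ≠ 0) →
      (∀ z, c &&& z ≠ 0 → ∃ x ∈ T, ∃ y ∈ T, x ≠ y ∧ x.2.2 &&& z ≠ 0 ∧ y.2.2 &&& z ≠ 0) →
      (∀ x ∈ toks, X &&& x.2.1 ≠ 0 → x.1 ∉ M) →
      (∀ e ∈ E, e ∈ es ∨ a &&& e.1 ≠ 0) →
      go ok es (T.map (fun x => x.2.2)) a c X = true → ok M.card = true := by
  intro es
  induction es with
  | nil =>
    intro T a c X _ hT hnd hTM ha _ _ hdone hgo
    rw [go, List.length_map] at hgo
    have hM : M = (T.map (fun x => x.1)).toFinset := by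
      ext b
      rw [List.mem_toFinset, List.mem_map]
      constructor
      · intro hb
        obtain ⟨e, he, -, hpe⟩ := hmin b hb
        have h1 := (hdone e he).resolve_left List.not_mem_nil
        obtain ⟨x, hx, hx2⟩ := (ha _).mp h1
        exact ⟨x, hx, hpe x (hE2 e he x (hT hx) hx2) (hTM x hx)⟩
      · rintro ⟨x, hx, rfl⟩
        exact hTM x hx
    have hnd2 : (T.map (fun x => x.1)).Nodup :=
      List.Nodup.map_on (fun x hx y hy h => hel x (hT hx) y (hT hy) h) hnd
    have : M.card = T.length := by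
      rw [hM, List.toFinset_card_of_nodup hnd2, List.length_map]
    rw [this]
    exact hgo
  | cons e es ih =>
    intro T a c X hsub hT hnd hTM ha hc hXM hdone hgo
    have heE : e ∈ E := hsub List.mem_cons_self
    have hsub' : es ⊆ E := fun z hz => hsub (List.mem_cons_of_mem _ hz)
    rw [go] at hgo
    by_cases h0 : a &&& e.1 = 0
    · rw [h0] at hgo
      have hgo' : branch (fun I X' => bif priv (c ||| (a &&& I)) (I :: T.map (fun x => x.2.2)) then
        go ok es (I :: T.map (fun x => x.2.2)) (a ||| I) (c ||| (a &&& I)) X' else true)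
          e.2 X = true := by
        simpa using hgo
      obtain ⟨x, hx, hxM, X', hX', hf⟩ := branch_sound (M := M) hX e.2 X
        (fun z hz => (hE1 e heE z hz).1) (hit e heE) hXM hgo'
      obtain ⟨hxt, hxe⟩ := hE1 e heE x hx
      have hxT : x ∉ T := by
        intro hxT
        exact ((ha e.1).mpr ⟨x, hxT, hxe⟩) h0
      have hT' : (x :: T) ⊆ toks := by
        intro z hz
        rcases List.mem_cons.mp hz with rfl | hz
        · exact hxt
        · exact hT hz
      have hTM' : ∀ y ∈ x :: T, y.1 ∈ M := by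
        intro y hy
        rcases List.mem_cons.mp hy with rfl | hy
        · exact hxM
        · exact hTM y hy
      have ha' : ∀ z, (a ||| x.2.2) &&& z ≠ 0 ↔ ∃ y ∈ x :: T, y.2.2 &&& z ≠ 0 := by
        intro z
        rw [or_and_ne, ha z]
        constructor
        · rintro (⟨y, hy, h⟩ | h)
          · exact ⟨y, List.mem_cons_of_mem _ hy, h⟩
          · exact ⟨x, List.mem_cons_self, h⟩
        · rintro ⟨y, hy, h⟩
          rcases List.mem_cons.mp hy with rfl | hy
          · exact Or.inr h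
          · exact Or.inl ⟨y, hy, h⟩
      have hc' : ∀ z, (c ||| (a &&& x.2.2)) &&& z ≠ 0 →
          ∃ u ∈ x :: T, ∃ w ∈ x :: T, u ≠ w ∧ u.2.2 &&& z ≠ 0 ∧ w.2.2 &&& z ≠ 0 := by
        intro z hz
        rcases (or_and_ne _ _ _).mp hz with h | h
        · obtain ⟨u, hu, w, hw, h1, h2, h3⟩ := hc z h
          exact ⟨u, List.mem_cons_of_mem _ hu, w, List.mem_cons_of_mem _ hw, h1, h2, h3⟩
        · rw [Nat.and_assoc] at h
          obtain ⟨y, hy, hy2⟩ := (ha _).mp h
          refine ⟨x, List.mem_cons_self, y, List.mem_cons_of_mem _ hy, ?_, ?_, ?_⟩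
          · rintro rfl; exact hxT hy
          · intro h0'
            rw [h0'] at hy2
            exact hy2 (Nat.and_zero _)
          · intro h0'
            apply hy2
            rw [Nat.and_comm x.2.2 z, ← Nat.and_assoc, h0', Nat.zero_and]
      have hpriv : priv (c ||| (a &&& x.2.2)) (x.2.2 :: T.map (fun x => x.2.2)) = true := by
        apply priv_true
        intro J hJ hJe
        have : ∃ y ∈ x :: T, y.2.2 = J := by
          rw [← List.map_cons (f := fun x : Tok => x.2.2)] at hJ
          obtain ⟨y, hy, hy2⟩ := List.mem_map.mp hJ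
          exact ⟨y, hy, hy2⟩
        obtain ⟨y, hy, rfl⟩ := this
        obtain ⟨e', he', ⟨x', hx', hx'y⟩, hpe⟩ := hmin y.1 (hTM' y hy)
        have hxy : x' = y := hel x' (hE1 e' he' x' hx').1 y (hT' hy) hx'y
        subst hxy
        have h1 : x'.2.2 &&& e'.1 ≠ 0 := (hE1 e' he' x' hx').2
        have h2 : (c ||| (a &&& x.2.2)) &&& e'.1 ≠ 0 := by
          intro h3
          apply h1
          rw [← hJe, Nat.and_assoc, h3, Nat.and_zero]
        obtain ⟨u, hu, w, hw, huw, h3, h4⟩ := hc' _ h2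
        apply huw
        apply hel u (hT' hu) w (hT' hw)
        rw [hpe u (hE2 e' he' u (hT' hu) h3) (hTM' u hu),
          hpe w (hE2 e' he' w (hT' hw) h4) (hTM' w hw)]
      rw [hpriv] at hf
      have hf' : go ok es ((x :: T).map (fun x => x.2.2)) (a ||| x.2.2) (c ||| (a &&& x.2.2)) X'
          = true := by simpa using hf
      refine ih (x :: T) (a ||| x.2.2) (c ||| (a &&& x.2.2)) X' hsub' hT'
        (List.nodup_cons.mpr ⟨hxT, hnd⟩) hTM' ha' hc' hX' ?_ hf'
      intro e' he'
      rcases hdone e' he' with h | h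
      · rcases List.mem_cons.mp h with rfl | h
        · exact Or.inr ((ha' _).mpr ⟨x, List.mem_cons_self, hxe⟩)
        · exact Or.inl h
      · exact Or.inr ((or_and_ne _ _ _).mpr (Or.inl h))
    · have hb : Nat.beq (a &&& e.1) 0 = false := by
        rw [← Bool.not_eq_true, Nat.beq_eq]
        exact h0
      rw [hb] at hgo
      have hgo' : go ok es (T.map (fun x => x.2.2)) a c X = true := by simpa using hgo
      refine ih T a c X hsub' hT hnd hTM ha hc hXM ?_ hgo'
      intro e' he'
      rcases hdone e' he' with h | h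
      · rcases List.mem_cons.mp h with rfl | h
        · exact Or.inr h0
        · exact Or.inl h
      · exact Or.inr h

/-- If the search from the empty set succeeds, then the size of every minimal hitting set is
allowed. -/
theorem go_sound' {ok : ℕ → Bool}
    (hE1 : ∀ e ∈ E, ∀ x ∈ e.2, x ∈ toks ∧ x.2.2 &&& e.1 ≠ 0)
    (hE2 : ∀ e ∈ E, ∀ x ∈ toks, x.2.2 &&& e.1 ≠ 0 → x ∈ e.2)
    (hX : ∀ x ∈ toks, ∀ y ∈ toks, x.2.1 &&& y.2.1 ≠ 0 → x = y)
    (hel : ∀ x ∈ toks, ∀ y ∈ toks, x.1 = y.1 → x = y)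
    (hit : ∀ e ∈ E, ∃ x ∈ e.2, x.1 ∈ M)
    (hmin : ∀ b ∈ M, ∃ e ∈ E, (∃ x ∈ e.2, x.1 = b) ∧ ∀ x ∈ e.2, x.1 ∈ M → x.1 = b)
    (h : go ok E [] 0 0 0 = true) : ok M.card = true := by
  refine go_sound (T := []) hE1 hE2 hX hel hit hmin E 0 0 0 (List.Subset.refl _) ?_ List.nodup_nil
    ?_ ?_ ?_ ?_ (fun e he => Or.inl he) h
  · intro z hz; exact absurd hz List.not_mem_nil
  · intro x hx; exact absurd hx List.not_mem_nil
  · intro z; simp
  · intro z hz; simp at hz
  · intro x _ hx; simp at hx

end sound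

end Pool.Agent.Y344.Holes
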