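import Pool.Agent.Y344.HolesData
import Pool.Agent.Y344.HoleDefs

/-!
# The spectrum of minimal defining sets of the simple 2-(7,3,4) design
-/

set_option autoImplicit false

namespace Pool.Agent.Y344.Holes

open Finset Pool.Agent.Y344.HoleDefs

/-! ### Exact covers -/

def covb (f : ℕ → ℕ → List ℕ) (I O : ℕ) : List (ℕ × ℕ) → List ℕ
  | [] => []
  | x :: xs => (bif Nat.beq ((O &&& x.1) ||| (I &&& x.2)) 0 then f (I ||| x.1) (O ||| x.2) else [])
      ++ covb f I O xs

def cov : List (List (ℕ × ℕ)) → ℕ → ℕ → List ℕ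
  | [], I, _ => [I]
  | p :: ps, I, O => covb (fun I' O' => cov ps I' O') I O p

lemma mem_covb {f : ℕ → ℕ → List ℕ} {I O F : ℕ} : ∀ {p : List (ℕ × ℕ)} {x : ℕ × ℕ}, x ∈ p →
    (O &&& x.1) ||| (I &&& x.2) = 0 → F ∈ f (I ||| x.1) (O ||| x.2) → F ∈ covb f I O p := by
  intro p
  induction p with
  | nil => intro x hx; exact absurd hx List.not_mem_nil
  | cons y ys ih =>
    intro x hx h0 hF
    rw [covb, List.mem_append]
    rcases List.mem_cons.mp hx with rfl | hx
    · left
      rw [h0]
      simpa using hF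
    · exact Or.inr (ih hx h0 hF)

lemma testBit_of_and_eq {F x : ℕ} (h : F &&& x = x) {i : ℕ} (hi : x.testBit i = true) :
    F.testBit i = true := by
  have := congrArg (fun n => Nat.testBit n i) h
  simp only [Nat.testBit_and, hi, Bool.and_true] at this
  exact this

lemma testBit_of_and_zero {F x : ℕ} (h : F &&& x = 0) {i : ℕ} (hi : x.testBit i = true) :
    F.testBit i = false := by
  have := congrArg (fun n => Nat.testBit n i) h
  simp only [Nat.testBit_and, hi, Bool.and_true, Nat.zero_testBit] at this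
  exact this

theorem cov_sound (F : ℕ) : ∀ (ps : List (List (ℕ × ℕ))) (I O : ℕ),
    (∀ p ∈ ps, ∃ x ∈ p, F &&& x.1 = x.1 ∧ F &&& x.2 = 0) → F &&& I = I → F &&& O = 0 →
    (∀ i, F.testBit i = true → I.testBit i = true ∨
      ∃ p ∈ ps, ∀ x ∈ p, (x.1 ||| x.2).testBit i = true) → F ∈ cov ps I O := by
  intro ps
  induction ps with
  | nil =>
    intro I O _ hI _ hall
    rw [cov, List.mem_singleton]
    apply Nat.eq_of_testBit_eq
    intro i
    by_cases h : F.testBit i = true
    · rcases hall i h with h1 | ⟨p, hp, _⟩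
      · rw [h, h1]
      · exact absurd hp List.not_mem_nil
    · by_cases h2 : I.testBit i = true
      · exact absurd (testBit_of_and_eq hI h2) h
      · rw [Bool.not_eq_true] at h h2
        rw [h, h2]
  | cons p ps ih =>
    intro I O hps hI hO hall
    obtain ⟨x, hx, h1, h2⟩ := hps p List.mem_cons_self
    rw [cov]
    refine mem_covb hx ?_ (ih _ _ (fun q hq => hps q (List.mem_cons_of_mem _ hq)) ?_ ?_ ?_)
    · apply Nat.eq_of_testBit_eq
      intro i
      simp only [Nat.testBit_or, Nat.testBit_and, Nat.zero_testBit]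
      cases hxi : x.1.testBit i with
      | true =>
        have hF := testBit_of_and_eq h1 hxi
        cases hOi : O.testBit i with
        | true => rw [testBit_of_and_zero hO hOi] at hF; exact absurd hF (by simp)
        | false =>
          cases hx2 : x.2.testBit i with
          | true => rw [testBit_of_and_zero h2 hx2] at hF; exact absurd hF (by simp)
          | false => simp
      | false =>
        cases hx2 : x.2.testBit i with
        | true =>
          have hF := testBit_of_and_zero h2 hx2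
          cases hIi : I.testBit i with
          | true => rw [testBit_of_and_eq hI hIi] at hF; exact absurd hF (by simp)
          | false => simp
        | false => simp
    · rw [Nat.and_comm, Nat.and_or_distrib_right, Nat.and_comm I, Nat.and_comm x.1, hI, h1]
    · rw [Nat.and_comm, Nat.and_or_distrib_right, Nat.and_comm O, Nat.and_comm x.2, hO, h2]
      rfl
    · intro i hi
      rcases hall i hi with h | ⟨q, hq, h⟩
      · left; rw [Nat.testBit_or, h, Bool.true_or]
      · rcases List.mem_cons.mp hq with rfl | hq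
        · left
          have h3 := h x hx
          rw [Nat.testBit_or] at h3 ⊢
          cases hx2 : x.2.testBit i with
          | true => rw [testBit_of_and_zero h2 hx2] at hi; exact absurd hi (by simp)
          | false => rw [hx2, Bool.or_false] at h3; rw [h3, Bool.or_true]
        · exact Or.inr ⟨q, hq, h⟩

/-! ### Checked facts about the data -/

lemma tripL_length : tripL.length = 35 := rfl

lemma trip_card : ∀ j < 35, (trip j).card = 3 := by decide +kernel

lemma trip_inj : ∀ i < 35, ∀ j < 35, trip i = trip j → i = j := by decide +kernel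

lemma trip_surj : ∀ b ∈ Finset.powersetCard 3 (Finset.univ : Finset (Fin 7)),
    ∃ j < 35, trip j = b := by decide +kernel

lemma pairs_surj : ∀ T ∈ Finset.powersetCard 2 (Finset.univ : Finset (Fin 7)),
    ∃ p ∈ pairsL, p.1 = T := by decide +kernel

lemma pairs_idx : ∀ p ∈ pairsL, p.2.Nodup ∧ p.2.length = 5 ∧ (∀ j ∈ p.2, j < 35) := by
  decide +kernel

lemma pairs_sub : ∀ p ∈ pairsL, ∀ j < 35, (p.1 ⊆ trip j ↔ j ∈ p.2) := by decide +kernel

lemma pairs_card : ∀ p ∈ pairsL, p.1.card = 2 := by decide +kernel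

/-- the mask entry belonging to the index `i` of the list `l` -/
def entry (l : List ℕ) (i : ℕ) : ℕ × ℕ := (2 ^ i, ((l.filter (fun j => j ≠ i)).map (fun j => 2 ^ j)).sum)

lemma covL_eq : covL = pairsL.map (fun p => p.2.map (entry p.2)) := by decide +kernel

lemma entry_bits : ∀ p ∈ pairsL, ∀ i ∈ p.2, ∀ j < 35,
    ((entry p.2 i).2.testBit j = true ↔ (j ∈ p.2 ∧ j ≠ i)) := by decide +kernel

lemma every_idx : ∀ j < 35, ∃ p ∈ pairsL, j ∈ p.2 := by decide +kernel

lemma cov_result : ∀ m ∈ cov covL 0 0, m ∈ F0 :: other := by decide +kernel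

lemma other_ne : ∀ m ∈ other, m ≠ F0 := by decide +kernel

lemma design_count : ∀ m ∈ F0 :: other, ∀ p ∈ pairsL,
    (p.2.filter (fun j => m.testBit j = false)).length = 4 := by decide +kernel

lemma masks_lt : ∀ m ∈ F0 :: other, m < 2 ^ 35 := by decide +kernel

lemma edges_length : edges.length = 29 := rfl
lemma other_length : other.length = 29 := rfl

lemma rel : ∀ k : Fin 29, ∀ j < 35,
    ((∃ x ∈ (edges.get (k.cast edges_length.symm)).2, x.1 = j) ↔
      ((other.get (k.cast other_length.symm)).testBit j = true ∧ F0.testBit j = false)) := by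
  decide +kernel

lemma edge_lt : ∀ e ∈ edges, ∀ x ∈ e.2, x.1 < 35 := by decide +kernel

lemma hE1 : ∀ e ∈ edges, ∀ x ∈ e.2, x ∈ toks ∧ x.2.2 &&& e.1 ≠ 0 := by decide +kernel

lemma hE2 : ∀ e ∈ edges, ∀ x ∈ toks, x.2.2 &&& e.1 ≠ 0 → x ∈ e.2 := by decide +kernel

lemma hX : ∀ x ∈ toks, ∀ y ∈ toks, x.2.1 &&& y.2.1 ≠ 0 → x = y := by decide +kernel

lemma hel : ∀ x ∈ toks, ∀ y ∈ toks, x.1 = y.1 → x = y := by decide +kernel

/-- the allowed sizes -/
def okB (n : ℕ) : Bool :=
  (Nat.beq n 7 || Nat.beq n 8 || Nat.beq n 9 || Nat.beq n 10 || Nat.beq n 13)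

lemma okB_iff (n : ℕ) : okB n = true ↔ n = 7 ∨ n = 8 ∨ n = 9 ∨ n = 10 ∨ n = 13 := by
  simp only [okB, Bool.or_eq_true, Nat.beq_eq]
  tauto

/-- the search through all minimal hitting sets -/
theorem check : go okB edges [] 0 0 0 = true := by decide +kernel

/-! ### Designs -/

/-- the family of the triples whose bit in `m` is zero -/
def des (m : ℕ) : Finset (Finset (Fin 7)) :=
  ((Finset.range 35).filter (fun j => m.testBit j = false)).image trip

lemma mem_des {m j : ℕ} (hj : j < 35) : trip j ∈ des m ↔ m.testBit j = false := by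
  rw [des, Finset.mem_image]
  constructor
  · rintro ⟨i, hi, h⟩
    rw [Finset.mem_filter, Finset.mem_range] at hi
    rw [← trip_inj i hi.1 j hj h]
    exact hi.2
  · intro h
    exact ⟨j, by rw [Finset.mem_filter, Finset.mem_range]; exact ⟨hj, h⟩, rfl⟩

lemma exists_idx {B : Finset (Finset (Fin 7))} (hB : ∀ b ∈ B, b.card = 3) {b : Finset (Fin 7)}
    (hb : b ∈ B) : ∃ j < 35, trip j = b :=
  trip_surj b (by rw [Finset.mem_powersetCard]; exact ⟨Finset.subset_univ _, hB b hb⟩)

/-- index set of a family of triples -/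
def idx (B : Finset (Finset (Fin 7))) : Finset ℕ := (Finset.range 35).filter (fun j => trip j ∈ B)

lemma mem_idx {B : Finset (Finset (Fin 7))} {j : ℕ} : j ∈ idx B ↔ j < 35 ∧ trip j ∈ B := by
  rw [idx, Finset.mem_filter, Finset.mem_range]

lemma trip_injOn {s : Finset ℕ} (hs : ∀ j ∈ s, j < 35) : Set.InjOn trip (s : Set ℕ) := by
  intro i hi j hj h
  exact trip_inj i (hs i hi) j (hs j hj) h

lemma image_idx {B : Finset (Finset (Fin 7))} (hB : ∀ b ∈ B, b.card = 3) :
    (idx B).image trip = B := by
  ext b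
  rw [Finset.mem_image]
  constructor
  · rintro ⟨j, hj, rfl⟩
    exact (mem_idx.mp hj).2
  · intro hb
    obtain ⟨j, hj, rfl⟩ := exists_idx hB hb
    exact ⟨j, mem_idx.mpr ⟨hj, hb⟩, rfl⟩

lemma card_idx {B : Finset (Finset (Fin 7))} (hB : ∀ b ∈ B, b.card = 3) :
    (idx B).card = B.card := by
  conv_rhs => rw [← image_idx hB]
  rw [Finset.card_image_of_injOn (trip_injOn (fun j hj => (mem_idx.mp hj).1))]

lemma filter_card {B : Finset (Finset (Fin 7))} (hB : ∀ b ∈ B, b.card = 3)
    {p : Finset (Fin 7) × List ℕ} (hp : p ∈ pairsL) :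
    (B.filter (fun b => p.1 ⊆ b)).card = (p.2.toFinset.filter (fun j => trip j ∈ B)).card := by
  have h1 : B.filter (fun b => p.1 ⊆ b)
      = (p.2.toFinset.filter (fun j => trip j ∈ B)).image trip := by
    ext b
    rw [Finset.mem_filter, Finset.mem_image]
    constructor
    · rintro ⟨hb, hs⟩
      obtain ⟨j, hj, rfl⟩ := exists_idx hB hb
      refine ⟨j, ?_, rfl⟩
      rw [Finset.mem_filter, List.mem_toFinset]
      exact ⟨(pairs_sub p hp j hj).mp hs, hb⟩
    · rintro ⟨j, hj, rfl⟩
      rw [Finset.mem_filter, List.mem_toFinset] at hj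
      exact ⟨hj.2, (pairs_sub p hp j ((pairs_idx p hp).2.2 j hj.1)).mpr hj.1⟩
  rw [h1, Finset.card_image_of_injOn]
  apply trip_injOn
  intro j hj
  rw [Finset.mem_filter, List.mem_toFinset] at hj
  exact (pairs_idx p hp).2.2 j hj.1

lemma des_isDesign {m : ℕ} (hm : m ∈ F0 :: other) : IsDesign 7 2 3 4 (des m) := by
  have h3 : ∀ b ∈ des m, b.card = 3 := by
    intro b hb
    rw [des, Finset.mem_image] at hb
    obtain ⟨j, hj, rfl⟩ := hb
    rw [Finset.mem_filter, Finset.mem_range] at hj
    exact trip_card j hj.1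
  refine ⟨h3, ?_⟩
  intro T hT
  obtain ⟨p, hp, rfl⟩ := pairs_surj T
    (by rw [Finset.mem_powersetCard]; exact ⟨Finset.subset_univ _, hT⟩)
  rw [filter_card h3 hp]
  have h4 := design_count m hm p hp
  have h5 : p.2.toFinset.filter (fun j => trip j ∈ des m)
      = (p.2.filter (fun j => m.testBit j = false)).toFinset := by
    ext j
    simp only [Finset.mem_filter, List.mem_toFinset, List.mem_filter, decide_eq_true_eq]
    constructor
    · rintro ⟨h, h'⟩
      exact ⟨h, (mem_des ((pairs_idx p hp).2.2 j h)).mp h'⟩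
    · rintro ⟨h, h'⟩
      exact ⟨h, (mem_des ((pairs_idx p hp).2.2 j h)).mpr h'⟩
  rw [h5, List.toFinset_card_of_nodup ((pairs_idx p hp).1.filter _), h4]

/-- Classification: a simple 2-(7,3,4) design is the complement of one of the 30 Fano planes. -/
theorem classify {B : Finset (Finset (Fin 7))} (hB : IsDesign 7 2 3 4 B) :
    ∃ m ∈ F0 :: other, B = des m := by
  classical
  set F : ℕ := Nat.ofBits (fun j : Fin 35 => decide (trip j ∉ B)) with hF
  have hbit : ∀ j < 35, (F.testBit j = true ↔ trip j ∉ B) := by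
    intro j hj
    rw [hF, Nat.testBit_ofBits_lt _ j hj, decide_eq_true_eq]
  have hbit2 : ∀ j, 35 ≤ j → F.testBit j = false := by
    intro j hj
    rw [hF, Nat.testBit_ofBits_ge _ j hj]
  have hmem : F ∈ cov covL 0 0 := by
    apply cov_sound
    · intro q hq
      rw [covL_eq, List.mem_map] at hq
      obtain ⟨p, hp, rfl⟩ := hq
      have h4 : (p.2.toFinset.filter (fun j => trip j ∈ B)).card = 4 := by
        rw [← filter_card hB.1 hp]
        exact hB.2 p.1 (pairs_card p hp)
      have h5 : p.2.toFinset.card = 5 := by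
        rw [List.toFinset_card_of_nodup (pairs_idx p hp).1]
        exact (pairs_idx p hp).2.1
      have h1 : (p.2.toFinset.filter (fun j => ¬ trip j ∈ B)).card = 1 := by
        have := Finset.card_filter_add_card_filter_not (s := p.2.toFinset)
          (fun j => trip j ∈ B)
        omega
      obtain ⟨i, hi⟩ := Finset.card_eq_one.mp h1
      have hi' : i ∈ p.2.toFinset.filter (fun j => ¬ trip j ∈ B) := by
        rw [hi]; exact Finset.mem_singleton_self i
      rw [Finset.mem_filter, List.mem_toFinset] at hi'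
      have hi35 := (pairs_idx p hp).2.2 i hi'.1
      refine ⟨entry p.2 i, List.mem_map_of_mem hi'.1, ?_, ?_⟩
      · change F &&& 2 ^ i = 2 ^ i
        apply Nat.eq_of_testBit_eq
        intro j
        rw [Nat.testBit_and, Nat.testBit_two_pow]
        by_cases hij : i = j
        · subst hij
          rw [(hbit i hi35).mpr hi'.2]
          simp
        · simp [hij]
      · apply Nat.eq_of_testBit_eq
        intro j
        rw [Nat.testBit_and, Nat.zero_testBit]
        by_cases hj : j < 35
        · by_cases h : (entry p.2 i).2.testBit j = true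
          · obtain ⟨h6, h7⟩ := (entry_bits p hp i hi'.1 j hj).mp h
            have : F.testBit j = false := by
              rw [← Bool.not_eq_true, hbit j hj]
              intro hjB
              have : j ∈ p.2.toFinset.filter (fun j => ¬ trip j ∈ B) := by
                rw [Finset.mem_filter, List.mem_toFinset]; exact ⟨h6, hjB⟩
              rw [hi, Finset.mem_singleton] at this
              exact h7 this
            rw [this, Bool.false_and]
          · rw [Bool.not_eq_true] at h
            rw [h, Bool.and_false]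
        · rw [hbit2 j (by omega), Bool.false_and]
    · exact Nat.and_zero _
    · exact Nat.and_zero _
    · intro j hj
      right
      have hj35 : j < 35 := by
        by_contra h
        rw [hbit2 j (by omega)] at hj
        exact absurd hj (by simp)
      obtain ⟨p, hp, hjp⟩ := every_idx j hj35
      refine ⟨p.2.map (entry p.2), ?_, ?_⟩
      · rw [covL_eq]; exact List.mem_map_of_mem hp
      · intro x hx
        obtain ⟨i, hi, rfl⟩ := List.mem_map.mp hx
        rw [Nat.testBit_or]
        by_cases hij : j = i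
        · subst hij
          have : (entry p.2 j).1.testBit j = true := by
            change (2 ^ j).testBit j = true
            rw [Nat.testBit_two_pow]; simp
          rw [this, Bool.true_or]
        · rw [(entry_bits p hp i hi j hj35).mpr ⟨hjp, hij⟩, Bool.or_true]
  refine ⟨F, cov_result F hmem, ?_⟩
  ext b
  constructor
  · intro hb
    obtain ⟨j, hj, rfl⟩ := exists_idx hB.1 hb
    rw [mem_des hj, ← Bool.not_eq_true, hbit j hj]
    exact fun h => h hb
  · intro hb
    rw [des, Finset.mem_image] at hb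
    obtain ⟨j, hj, rfl⟩ := hb
    rw [Finset.mem_filter, Finset.mem_range, ← Bool.not_eq_true, hbit j hj.1, not_not] at hj
    exact hj.2

lemma edge_of_other {m : ℕ} (hm : m ∈ other) : ∃ e ∈ edges, ∀ j < 35,
    ((∃ x ∈ e.2, x.1 = j) ↔ (m.testBit j = true ∧ F0.testBit j = false)) := by
  obtain ⟨k, hk⟩ := List.get_of_mem hm
  have h := rel (k.cast other_length)
  refine ⟨edges.get ((k.cast other_length).cast edges_length.symm), List.get_mem _ _, ?_⟩
  rw [← hk]
  exact h

lemma other_of_edge {e : ℕ × List Tok} (he : e ∈ edges) : ∃ m ∈ other, ∀ j < 35,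
    ((∃ x ∈ e.2, x.1 = j) ↔ (m.testBit j = true ∧ F0.testBit j = false)) := by
  obtain ⟨k, hk⟩ := List.get_of_mem he
  have h := rel (k.cast edges_length)
  refine ⟨other.get ((k.cast edges_length).cast other_length.symm), List.get_mem _ _, ?_⟩
  rw [← hk]
  exact h

/-- A subfamily of `des F0` is a defining set if and only if it meets all 29 edges. -/
theorem defining_iff {S : Finset (Finset (Fin 7))} (hS : S ⊆ des F0) :
    IsDefiningSet 7 2 3 4 (des F0) S ↔ ∀ e ∈ edges, ∃ x ∈ e.2, x.1 ∈ idx S := by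
  have hF0 : IsDesign 7 2 3 4 (des F0) := des_isDesign List.mem_cons_self
  constructor
  · rintro ⟨-, h⟩ e he
    by_contra hcon
    push Not at hcon
    obtain ⟨m, hm, hrel⟩ := other_of_edge he
    have hsub : S ⊆ des m := by
      intro b hb
      obtain ⟨j, hj, rfl⟩ := exists_idx hF0.1 (hS hb)
      rw [mem_des hj]
      by_contra hne
      rw [Bool.not_eq_false] at hne
      have h0 := (mem_des hj).mp (hS hb)
      obtain ⟨x, hx, hxj⟩ := (hrel j hj).mpr ⟨hne, h0⟩
      exact hcon x hx (mem_idx.mpr (by rw [hxj]; exact ⟨hj, hb⟩))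
    have := h (des m) (des_isDesign (List.mem_cons_of_mem _ hm)) hsub
    apply other_ne m hm
    apply Nat.eq_of_testBit_eq
    intro j
    by_cases hj : j < 35
    · have h1 := mem_des (m := m) hj
      rw [this, mem_des hj] at h1
      cases h2 : m.testBit j <;> cases h3 : F0.testBit j <;> simp_all
    · have hlt : ∀ n, n < 2 ^ 35 → n.testBit j = false := fun n hn =>
        Nat.testBit_lt_two_pow (lt_of_lt_of_le hn (Nat.pow_le_pow_right (by norm_num) (by omega)))
      rw [hlt m (masks_lt m (List.mem_cons_of_mem _ hm)), hlt F0 (masks_lt F0 List.mem_cons_self)]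
  · intro h
    refine ⟨hS, ?_⟩
    intro B hB hSB
    obtain ⟨m, hm, rfl⟩ := classify hB
    rcases List.mem_cons.mp hm with rfl | hm
    · rfl
    · exfalso
      obtain ⟨e, he, hrel⟩ := edge_of_other hm
      obtain ⟨x, hx, hxS⟩ := h e he
      obtain ⟨hx35, hxS'⟩ := mem_idx.mp hxS
      have h1 := ((hrel x.1 hx35).mp ⟨x, hx, rfl⟩).1
      have h2 := (mem_des hx35).mp (hSB hxS')
      rw [h1] at h2
      exact absurd h2 (by simp)

lemma spec_le {n : ℕ} (hn : n ∈ Spec 7 2 3 4 (des F0)) :
    n = 7 ∨ n = 8 ∨ n = 9 ∨ n = 10 ∨ n = 13 := by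
  obtain ⟨S, ⟨hS, hmin⟩, rfl⟩ := hn
  have hF0 : IsDesign 7 2 3 4 (des F0) := des_isDesign List.mem_cons_self
  have hS3 : ∀ b ∈ S, b.card = 3 := fun b hb => hF0.1 b (hS.1 hb)
  have hit := (defining_iff hS.1).mp hS
  rw [← card_idx hS3, ← okB_iff]
  refine go_sound' hE1 hE2 hX hel hit ?_ check
  intro j hj
  obtain ⟨hj35, hjS⟩ := mem_idx.mp hj
  have h1 := hmin (S.erase (trip j)) (Finset.erase_ssubset hjS)
  rw [defining_iff ((Finset.erase_subset _ _).trans hS.1)] at h1
  push Not at h1
  obtain ⟨e, he, h2⟩ := h1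
  have h3 : ∀ x ∈ e.2, x.1 ∈ idx S → x.1 = j := by
    intro x hx hxS
    by_contra hne
    obtain ⟨hx35, hxS'⟩ := mem_idx.mp hxS
    apply h2 x hx
    rw [mem_idx]
    exact ⟨hx35, Finset.mem_erase.mpr ⟨fun h => hne (trip_inj _ hx35 _ hj35 h), hxS'⟩⟩
  refine ⟨e, he, ?_, h3⟩
  obtain ⟨x, hx, hxS⟩ := hit e he
  exact ⟨x, hx, h3 x hx hxS⟩

/-- Certificates for elements of the spectrum. -/
lemma mem_spec (l : List ℕ) (hnd : l.Nodup) (h35 : ∀ j ∈ l, j < 35 ∧ F0.testBit j = false)
    (hhit : ∀ e ∈ edges, ∃ x ∈ e.2, x.1 ∈ l)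
    (hpriv : ∀ j ∈ l, ∃ e ∈ edges, ∀ x ∈ e.2, x.1 ∈ l → x.1 = j) :
    l.length ∈ Spec 7 2 3 4 (des F0) := by
  classical
  have hidx : ∀ j < 35, (trip j ∈ l.toFinset.image trip ↔ j ∈ l) := by
    intro j hj
    rw [Finset.mem_image]
    constructor
    · rintro ⟨i, hi, h⟩
      rw [List.mem_toFinset] at hi
      rw [← trip_inj i (h35 i hi).1 j hj h]
      exact hi
    · intro h
      exact ⟨j, List.mem_toFinset.mpr h, rfl⟩
  have hsub : l.toFinset.image trip ⊆ des F0 := by
    intro b hb
    rw [Finset.mem_image] at hb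
    obtain ⟨j, hj, rfl⟩ := hb
    rw [List.mem_toFinset] at hj
    exact (mem_des (h35 j hj).1).mpr (h35 j hj).2
  refine ⟨l.toFinset.image trip, ⟨?_, ?_⟩, ?_⟩
  · rw [defining_iff hsub]
    intro e he
    obtain ⟨x, hx, hxl⟩ := hhit e he
    exact ⟨x, hx, mem_idx.mpr ⟨(h35 _ hxl).1, (hidx _ (h35 _ hxl).1).mpr hxl⟩⟩
  · intro S' hS' hdef
    have hle := hS'.subset
    obtain ⟨b, hb, hbS⟩ := Finset.exists_of_ssubset hS'
    rw [Finset.mem_image] at hb
    obtain ⟨j, hj, rfl⟩ := hb
    rw [List.mem_toFinset] at hj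
    rw [defining_iff (hle.trans hsub)] at hdef
    obtain ⟨e, he, hpe⟩ := hpriv j hj
    obtain ⟨x, hx, hxS⟩ := hdef e he
    obtain ⟨hx35, hxS'⟩ := mem_idx.mp hxS
    have hxl : x.1 ∈ l := (hidx x.1 hx35).mp (hle hxS')
    have := hpe x hx hxl
    rw [this] at hxS'
    exact hbS hxS'
  · rw [Finset.card_image_of_injOn, List.toFinset_card_of_nodup hnd]
    apply trip_injOn
    intro j hj
    rw [List.mem_toFinset] at hj
    exact (h35 j hj).1

theorem main : IsDesign 7 2 3 4 (des F0) ∧ Spec 7 2 3 4 (des F0) = {7, 8, 9, 10, 13} := by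
  refine ⟨des_isDesign List.mem_cons_self, ?_⟩
  apply Set.eq_of_subset_of_subset
  · intro n hn
    have := spec_le hn
    simpa using this
  · intro n hn
    simp only [Set.mem_insert_iff, Set.mem_singleton_iff] at hn
    rcases hn with rfl | rfl | rfl | rfl | rfl
    · exact mem_spec [1, 2, 3, 4, 9, 10, 19] (by decide +kernel) (by decide +kernel)
        (by decide +kernel) (by decide +kernel)
    · exact mem_spec [1, 2, 4, 9, 13, 15, 18, 24] (by decide +kernel) (by decide +kernel)
        (by decide +kernel) (by decide +kernel)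
    · exact mem_spec [1, 2, 4, 6, 9, 10, 16, 18, 24] (by decide +kernel) (by decide +kernel)
        (by decide +kernel) (by decide +kernel)
    · exact mem_spec [1, 2, 4, 6, 9, 16, 18, 22, 26, 27] (by decide +kernel) (by decide +kernel)
        (by decide +kernel) (by decide +kernel)
    · exact mem_spec [2, 4, 7, 8, 9, 10, 15, 16, 24, 27, 28, 32, 34] (by decide +kernel)
        (by decide +kernel) (by decide +kernel) (by decide +kernel)

end Pool.Agent.Y344.Holes
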